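import Pool.Agent.Run7.h641.AP.Iface

/-!
# Piece DG of the project AP (helper641), by helper379: the exceptional set from countably many tests
-/

set_option autoImplicit false

open Filter Topology

namespace Pool.Agent.Run7.h641.AP.DG

open Pool.Agent.Run7.h641.AP

/-- a suitable increasing sequence of bounds -/
theorem exists_seq (P : ℕ → ℕ → ℝ → Prop) (hP : ∀ l k, ∃ R, ∀ t, R ≤ t → P l k t) :
    ∃ R : ℕ → ℝ, Monotone R ∧ (∀ k : ℕ, (k : ℝ) ≤ R k) ∧ ∀ k l, l ≤ k → ∀ t, R k ≤ t → P l k t := by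
  choose R' hR' using hP
  refine ⟨fun k => (∑ j ∈ Finset.range (k + 1), ∑ l ∈ Finset.range (k + 1), |R' l j|) + k, ?_, ?_, ?_⟩
  · intro k k' h
    have h1 : ∑ j ∈ Finset.range (k + 1), ∑ l ∈ Finset.range (k + 1), |R' l j| ≤
        ∑ j ∈ Finset.range (k' + 1), ∑ l ∈ Finset.range (k' + 1), |R' l j| := by
      have hs : Finset.range (k + 1) ⊆ Finset.range (k' + 1) :=
        Finset.range_subset_range.2 (by omega)
      calc ∑ j ∈ Finset.range (k + 1), ∑ l ∈ Finset.range (k + 1), |R' l j| ≤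
          ∑ j ∈ Finset.range (k + 1), ∑ l ∈ Finset.range (k' + 1), |R' l j| :=
            Finset.sum_le_sum fun j _ =>
              Finset.sum_le_sum_of_subset_of_nonneg hs fun _ _ _ => abs_nonneg _
        _ ≤ _ := Finset.sum_le_sum_of_subset_of_nonneg hs fun _ _ _ =>
              Finset.sum_nonneg fun _ _ => abs_nonneg _
    have h2 : (k : ℝ) ≤ k' := by exact_mod_cast h
    exact add_le_add h1 h2
  · intro k
    have h1 : 0 ≤ ∑ j ∈ Finset.range (k + 1), ∑ l ∈ Finset.range (k + 1), |R' l j| :=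
      Finset.sum_nonneg fun _ _ => Finset.sum_nonneg fun _ _ => abs_nonneg _
    simp only
    linarith
  · intro k l hl t ht
    apply hR' l k t
    refine le_trans ?_ ht
    have h1 : |R' l k| ≤ ∑ l ∈ Finset.range (k + 1), |R' l k| :=
      Finset.single_le_sum (f := fun l => |R' l k|) (fun _ _ => abs_nonneg _)
        (Finset.mem_range.2 (by omega))
    have h2 : ∑ l ∈ Finset.range (k + 1), |R' l k| ≤
        ∑ j ∈ Finset.range (k + 1), ∑ l ∈ Finset.range (k + 1), |R' l j| :=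
      Finset.single_le_sum (f := fun j => ∑ l ∈ Finset.range (k + 1), |R' l j|)
        (fun _ _ => Finset.sum_nonneg fun _ _ => abs_nonneg _) (Finset.mem_range.2 (by omega))
    have h3 : (0 : ℝ) ≤ k := Nat.cast_nonneg _
    simp only
    linarith [le_abs_self (R' l k)]

/-- the level of a number -/
theorem exists_level {R : ℕ → ℝ} (hR : ∀ k : ℕ, (k : ℝ) ≤ R k) (t : ℝ) (k₀ : ℕ) (h : R k₀ ≤ t) :
    ∃ K, k₀ ≤ K ∧ R K ≤ t ∧ t < R (K + 1) := by
  by_contra hcon
  push Not at hcon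
  have h1 : ∀ K, k₀ ≤ K → R K ≤ t := by
    intro K hK
    induction K, hK using Nat.le_induction with
    | base => exact h
    | succ K hK ih => exact hcon K hK ih
  obtain ⟨N, hN⟩ := exists_nat_gt t
  have h2 := h1 (max N k₀) (le_max_right _ _)
  have h3 := hR (max N k₀)
  have h4 : (N : ℝ) ≤ ((max N k₀ : ℕ) : ℝ) := by exact_mod_cast le_max_left N k₀
  linarith

theorem level_unique {R : ℕ → ℝ} (hm : Monotone R) {t : ℝ} {K K' : ℕ} (h1 : R K ≤ t)
    (h2 : t < R (K + 1)) (h3 : R K' ≤ t) (h4 : t < R (K' + 1)) : K = K' := by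
  rcases lt_trichotomy K K' with h | h | h
  · have := hm (show K + 1 ≤ K' by omega)
    linarith
  · exact h
  · have := hm (show K' + 1 ≤ K by omega)
    linarith

theorem t_DG : S_DG := by
  intro X Δ d r v hfin hv
  classical
  -- the bounds
  obtain ⟨R, hRm, hRk, hRP⟩ := exists_seq (fun l k t => ∀ D, t = r D →
    ∑ᶠ x ∈ {x | d x = D}, v l x ^ 2 ≤ (1 / 4 : ℝ) ^ k * ({x | d x = D}.ncard : ℝ)) (by
      intro l k
      obtain ⟨R, hR⟩ := hv l ((1 / 4 : ℝ) ^ k) (by positivity)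
      exact ⟨R, fun t ht D hD => hR D (by rw [← hD]; exact ht)⟩)
  set Z : Set X := {x | ∃ k l : ℕ, l ≤ k ∧ R k ≤ r (d x) ∧ r (d x) < R (k + 1) ∧
    (1 / 2 : ℝ) ^ k < v l x ^ 2} with hZ
  refine ⟨Z, ?_, ?_⟩
  · intro ε hε
    -- `(k + 1) / 2 ^ k` tends to zero
    have hlim : Tendsto (fun k : ℕ => ((k : ℝ) + 1) * (1 / 2 : ℝ) ^ k) atTop (𝓝 0) := by
      have h1 := tendsto_self_mul_const_pow_of_lt_one (r := (1 / 2 : ℝ)) (by norm_num) (by norm_num)
      have h2 := tendsto_pow_atTop_nhds_zero_of_lt_one (r := (1 / 2 : ℝ)) (by norm_num) (by norm_num)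
      have h3 := h1.add h2
      simp only [add_zero] at h3
      refine h3.congr fun k => ?_
      ring
    obtain ⟨k₀, hk₀⟩ := (Filter.eventually_atTop.1 (hlim.eventually_le_const hε))
    refine ⟨R k₀, fun D hD => ?_⟩
    obtain ⟨K, hK0, hK1, hK2⟩ := exists_level hRk (r D) k₀ hD
    set T : Finset X := (hfin D).toFinset with hT
    have hTc : ({x | d x = D}.ncard : ℝ) = T.card := by
      rw [Set.ncard_eq_toFinset_card _ (hfin D)]
    have hsum : ∀ l ≤ K, ∑ x ∈ T, v l x ^ 2 ≤ (1 / 4 : ℝ) ^ K * T.card := by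
      intro l hl
      have h1 := hRP K l hl (r D) hK1 D rfl
      rw [finsum_mem_eq_finite_toFinset_sum _ (hfin D), hTc] at h1
      exact h1
    have hsub : {x | x ∈ Z ∧ d x = D} ⊆
        (((Finset.range (K + 1)).biUnion fun l => T.filter fun x => (1 / 2 : ℝ) ^ K < v l x ^ 2 :
          Finset X) : Set X) := by
      rintro x ⟨⟨k, l, hl, h1, h2, h3⟩, hx⟩
      rw [hx] at h1 h2
      have hkK : k = K := level_unique hRm h1 h2 hK1 hK2
      subst hkK
      simp only [Finset.coe_biUnion, Set.mem_iUnion, Finset.mem_coe, Finset.mem_filter,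
        Finset.mem_range]
      exact ⟨l, by omega, by rw [hT, Set.Finite.mem_toFinset]; exact hx, h3⟩
    have hcheb : ∀ l ≤ K, ((T.filter fun x => (1 / 2 : ℝ) ^ K < v l x ^ 2).card : ℝ) ≤
        (1 / 2 : ℝ) ^ K * T.card := by
      intro l hl
      have h1 : ((T.filter fun x => (1 / 2 : ℝ) ^ K < v l x ^ 2).card : ℝ) * (1 / 2 : ℝ) ^ K ≤
          ∑ x ∈ T, v l x ^ 2 := by
        calc ((T.filter fun x => (1 / 2 : ℝ) ^ K < v l x ^ 2).card : ℝ) * (1 / 2 : ℝ) ^ K =
            ∑ _x ∈ T.filter fun x => (1 / 2 : ℝ) ^ K < v l x ^ 2, (1 / 2 : ℝ) ^ K := by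
              rw [Finset.sum_const, nsmul_eq_mul]
          _ ≤ ∑ x ∈ T.filter fun x => (1 / 2 : ℝ) ^ K < v l x ^ 2, v l x ^ 2 :=
              Finset.sum_le_sum fun x hx => (Finset.mem_filter.1 hx).2.le
          _ ≤ _ := Finset.sum_le_sum_of_subset_of_nonneg (Finset.filter_subset _ _)
              fun _ _ _ => sq_nonneg _
      have h2 := h1.trans (hsum l hl)
      have h3 : (1 / 4 : ℝ) ^ K = (1 / 2 : ℝ) ^ K * (1 / 2 : ℝ) ^ K := by
        rw [← mul_pow]
        norm_num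
      have h4 : (0 : ℝ) < (1 / 2 : ℝ) ^ K := by positivity
      rw [h3] at h2
      have h5 : ((T.filter fun x => (1 / 2 : ℝ) ^ K < v l x ^ 2).card : ℝ) * (1 / 2 : ℝ) ^ K ≤
          ((1 / 2 : ℝ) ^ K * T.card) * (1 / 2 : ℝ) ^ K := by
        calc _ ≤ _ := h2
          _ = _ := by ring
      exact le_of_mul_le_mul_right h5 h4
    have hcard : ({x | x ∈ Z ∧ d x = D}.ncard : ℝ) ≤ ((K : ℝ) + 1) * (1 / 2 : ℝ) ^ K * T.card := by
      have h1 : {x | x ∈ Z ∧ d x = D}.ncard ≤
          ((Finset.range (K + 1)).biUnion fun l => T.filter fun x => (1 / 2 : ℝ) ^ K < v l x ^ 2).card := by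
        rw [← Set.ncard_coe_finset]
        exact Set.ncard_le_ncard hsub (Finset.finite_toSet _)
      have h2 : (((Finset.range (K + 1)).biUnion fun l =>
          T.filter fun x => (1 / 2 : ℝ) ^ K < v l x ^ 2).card : ℝ) ≤
          ∑ l ∈ Finset.range (K + 1), ((T.filter fun x => (1 / 2 : ℝ) ^ K < v l x ^ 2).card : ℝ) := by
        exact_mod_cast Finset.card_biUnion_le
      calc ({x | x ∈ Z ∧ d x = D}.ncard : ℝ) ≤ _ := by exact_mod_cast h1
        _ ≤ _ := h2
        _ ≤ ∑ _l ∈ Finset.range (K + 1), (1 / 2 : ℝ) ^ K * T.card :=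
            Finset.sum_le_sum fun l hl => hcheb l (by have := Finset.mem_range.1 hl; omega)
        _ = _ := by
            rw [Finset.sum_const, Finset.card_range, nsmul_eq_mul]
            push_cast
            ring
    rw [hTc]
    exact hcard.trans (mul_le_mul_of_nonneg_right (hk₀ K hK0) (Nat.cast_nonneg _))
  · intro x hx hr l
    rw [Metric.tendsto_atTop]
    intro ε hε
    have h2 := tendsto_pow_atTop_nhds_zero_of_lt_one (r := (1 / 2 : ℝ)) (by norm_num) (by norm_num)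
    obtain ⟨k₁, hk₁⟩ := (Filter.eventually_atTop.1 (h2.eventually_lt_const (show 0 < ε ^ 2 by positivity)))
    set k₀ := max k₁ l with hk₀
    obtain ⟨N, hN⟩ := Filter.eventually_atTop.1 (hr.eventually_ge_atTop (R k₀))
    refine ⟨N, fun i hi => ?_⟩
    obtain ⟨K, hK0, hK1, hK2⟩ := exists_level hRk (r (d (x i))) k₀ (hN i hi)
    have h3 : v l (x i) ^ 2 ≤ (1 / 2 : ℝ) ^ K := by
      by_contra hcon
      push Not at hcon
      exact hx i ⟨K, l, (le_max_right _ _).trans hK0, hK1, hK2, hcon⟩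
    have h4 : v l (x i) ^ 2 < ε ^ 2 := lt_of_le_of_lt h3 (hk₁ K ((le_max_left _ _).trans hK0))
    rw [Real.dist_eq, sub_zero]
    exact abs_lt_of_sq_lt_sq h4 hε.le

end Pool.Agent.Run7.h641.AP.DG
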